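import Pool.Agent.H7.LP.Targets5

/-!
# MP_5607ba_lc, row QLC of the board lpr: the quotient of a piece
-/

set_option autoImplicit false

open Set Filter Topology

namespace Pool.Agent.H1.LR

open Pool.Agent.H7.LP Pool.Agent.H54.LP Pool.Agent.H93.CP Pool.Agent.H7.LR

theorem pf_QLC (h : T_PLC) : T_QLC := by
  intro G _ _ _ _ R H hP
  have hnorm : (R.subgroupOf H).Normal := by
    constructor
    intro n hn g
    rw [Subgroup.mem_subgroupOf] at hn ⊢
    exact hP.nor g g.2 n hn
  have hRc : IsClosed ((R.subgroupOf H : Subgroup H) : Set H) := by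
    have : ((R.subgroupOf H : Subgroup H) : Set H) = ((↑) : H → G) ⁻¹' (R : Set G) := by
      ext g
      simp [Subgroup.mem_subgroupOf]
    rw [this]
    exact hP.cl.preimage continuous_subtype_val
  have hHc : IsClosed (H : Set G) := Subgroup.isClosed_of_isOpen H hP.op
  have hopen : IsOpenMap (QuotientGroup.mk : H → H ⧸ R.subgroupOf H) :=
    QuotientGroup.isOpenMap_coe
  obtain ⟨C, hC, hS⟩ := hP.lc
  have hC' : IsCompact (((↑) : H → G) ⁻¹' C) :=
    (IsClosed.isClosedEmbedding_subtypeVal hHc).isCompact_preimage hC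
  have hS' : ((↑) : H → G) ⁻¹' {g : G | ∃ c ∈ C, c⁻¹ * g ∈ R} ∈ 𝓝 (1 : H) := by
    have hc : ContinuousAt ((↑) : H → G) (1 : H) := continuous_subtype_val.continuousAt
    exact hc (by simpa using hS)
  have hlc : LocallyCompactSpace (H ⧸ R.subgroupOf H) := by
    refine IsCompact.locallyCompactSpace_of_mem_nhds_of_group
      (K := (QuotientGroup.mk : H → H ⧸ R.subgroupOf H) '' (((↑) : H → G) ⁻¹' C))
      (hC'.image continuous_quot_mk) (x := ((1 : H) : H ⧸ R.subgroupOf H)) ?_
    refine mem_of_superset (hopen.image_mem_nhds hS') ?_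
    rintro _ ⟨g, ⟨c, hc, hcg⟩, rfl⟩
    have hcH : c ∈ H := by
      have h1 : c = g * (c⁻¹ * g)⁻¹ := by group
      rw [h1]
      exact H.mul_mem g.2 (H.inv_mem (hP.le hcg))
    refine ⟨⟨c, hcH⟩, hc, ?_⟩
    rw [QuotientGroup.eq]
    rw [Subgroup.mem_subgroupOf]
    exact hcg
  have hsc : SecondCountableTopology H :=
    (inferInstance : SecondCountableTopology ((H : Set G) : Type))
  have hsc2 : SecondCountableTopology (H ⧸ R.subgroupOf H) :=
    Topology.IsQuotientMap.secondCountableTopology isQuotientMap_quot_mk hopen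
  have hpol : PolishSpace (H ⧸ R.subgroupOf H) := h (H ⧸ R.subgroupOf H)
  refine ⟨H ⧸ R.subgroupOf H, inferInstance, inferInstance, inferInstance, hpol, hlc,
    QuotientGroup.mk' (R.subgroupOf H), continuous_quot_mk, hopen, ?_⟩
  intro g hg
  have h1 : g ∈ R.subgroupOf H := (QuotientGroup.eq_one_iff g).1 hg
  exact Subgroup.mem_subgroupOf.1 h1

end Pool.Agent.H1.LR
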